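import Pool.Agent.Helper46.SP.Sys
import Pool.Agent.Helper94.SP.B4a

/-!
# Module F3: the negation of `WO(ℝ)` is forced
-/

open Cardinal Set
open scoped Pointwise

namespace Pool.Agent.Helper23.SPF

open Pool.Agent.Helper46.SP Pool.Agent.Helper46.SP.Name Pool.Agent.Helper94.SP

variable {Q : Par} {S : CodeSys Q}

theorem perm_ai {α : Type} (f : Equiv.Perm α) (x : α) : f (f⁻¹ x) = x := f.apply_symm_apply x

theorem smul_coh (g : Grp Q) (i : Q.Ω) : g • (coh i : RN Q) = coh (g none i) := by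
  apply RN.ext
  funext n
  ext p
  rw [RN.smul_val, Set.mem_smul_set_iff_inv_smul_mem]
  show (g⁻¹ • p).val (i, n) = some true ↔ p.val (g none i, n) = some true
  rw [P0.smul_val]
  simp

/-- different Cohen reals are not equal -/
theorem coh_ne {i j : Q.Ω} (hij : i ≠ j) (p : P0 Q) : ¬ (coh i : RN Q).Feq (coh j) p := by
  intro h
  obtain ⟨n, hn⟩ : ∃ n : ℕ, p.val (i, n) = none ∧ p.val (j, n) = none := by
    have h1 : {n : ℕ | p.val (i, n) ≠ none}.Finite :=
      p.fin.preimage (f := fun n : ℕ => (i, n)) (fun a _ b _ hab => by simpa using hab)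
    have h2 : {n : ℕ | p.val (j, n) ≠ none}.Finite :=
      p.fin.preimage (f := fun n : ℕ => (j, n)) (fun a _ b _ hab => by simpa using hab)
    obtain ⟨n, hn⟩ := (h1.union h2).infinite_compl.nonempty
    refine ⟨n, ?_, ?_⟩
    · by_contra h'
      exact hn (Or.inl h')
    · by_contra h'
      exact hn (Or.inr h')
  classical
  let q : P0 Q := ⟨fun x => if x = (i, n) then some true else if x = (j, n) then some false
      else p.val x,
    (p.fin.union ((Set.finite_singleton (i, n)).union (Set.finite_singleton (j, n)))).subset (by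
      intro x hx
      by_cases hx1 : x = (i, n)
      · exact Or.inr (Or.inl hx1)
      · by_cases hx2 : x = (j, n)
        · exact Or.inr (Or.inr hx2)
        · left
          intro h0
          apply hx
          simp [hx1, hx2, h0])⟩
  have hq : q ≤ p := by
    intro x b hb
    show (if x = (i, n) then some true else if x = (j, n) then some false else p.val x) = some b
    by_cases hx1 : x = (i, n)
    · rw [hx1, hn.1] at hb; cases hb
    · by_cases hx2 : x = (j, n)
      · rw [hx2, hn.2] at hb; cases hb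
      · rw [if_neg hx1, if_neg hx2]; exact hb
  have h1 := (h q hq n).1 (show q.val (i, n) = some true by
    show (if (i, n) = (i, n) then some true else if (i, n) = (j, n) then some false
      else p.val (i, n)) = some true
    rw [if_pos rfl])
  have h2 : q.val (j, n) = some true := h1
  have h3 : q.val (j, n) = some false := by
    show (if (j, n) = (i, n) then some true else if (j, n) = (j, n) then some false
      else p.val (j, n)) = some false
    rw [if_neg (by simp only [Prod.mk.injEq, and_true]; exact fun h => hij h.symm), if_pos rfl]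
  rw [h2] at h3
  cases h3

variable (S) in
/-- the name of the set of all Cohen reals with index outside `Z` -/
def cohSet (Z : Set (Idx Q)) : Name (P0 Q × Cnd S) :=
  Name.mk {i : Q.Ω // ((none, i) : Idx Q) ∉ Z} (fun i => rn S (coh i.1)) (fun _ => ⊤)

theorem fmem_cohSet {Z : Set (Idx Q)} {x : Name (P0 Q × Cnd S)} {q : P0 Q × Cnd S} :
    FMem x (cohSet S Z) q ↔
      ∀ q' ≤ q, ∃ r ≤ q', ∃ i : Q.Ω, ((none, i) : Idx Q) ∉ Z ∧ FEq x (rn S (coh i)) r := by
  unfold cohSet
  rw [fmem_mk]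
  constructor
  · intro h q' hq'
    obtain ⟨r, hr, i, _, h2⟩ := h q' hq'
    exact ⟨r, hr, i.1, i.2, h2⟩
  · intro h q' hq'
    obtain ⟨r, hr, i, hi, h2⟩ := h q' hq'
    exact ⟨r, hr, ⟨i, hi⟩, le_top, h2⟩

theorem hs_cohSet (hR : RealFacts S) {Z : Set (Idx Q)} (hZ : Pool.Agent.Helper46.SP.Small Z) :
    (sys S).IsHS (cohSet S Z) := by
  unfold cohSet
  rw [isHS_mk]
  refine ⟨fun i => hR.hs _, fixSub Z, ⟨Z, hZ, le_rfl⟩, ?_⟩
  intro g hg
  have hg' : Fixes g Z := hg
  have key : ∀ i : Q.Ω, ((none, i) : Idx Q) ∉ Z → ((none, g none i) : Idx Q) ∉ Z := by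
    intro i hi hgi
    apply hi
    have h1 := hg' _ hgi
    rw [smul_idx] at h1
    simp only [Prod.mk.injEq, true_and, EmbeddingLike.apply_eq_iff_eq] at h1
    rwa [h1] at hgi
  have keyinv : ∀ i : Q.Ω, ((none, i) : Idx Q) ∉ Z → ((none, (g none)⁻¹ i) : Idx Q) ∉ Z := by
    intro i hi hgi
    apply hi
    have h1 := hg' _ hgi
    rw [smul_idx] at h1
    simp only [Prod.mk.injEq, true_and, perm_ai] at h1
    rwa [← h1] at hgi
  simp only [act]
  rw [feq_mk]
  constructor
  · intro i q hq _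
    refine ⟨q, le_rfl, ⟨g none i.1, key i.1 i.2⟩, le_top, ?_⟩
    have := feq_mono (hR.smul g (coh i.1)) (le_top (a := q))
    rwa [smul_coh] at this
  · intro j q hq _
    refine ⟨q, le_rfl, ⟨(g none)⁻¹ j.1, keyinv j.1 j.2⟩, ?_, ?_⟩
    · rw [(sys S).smul_top]; exact le_top
    · have := feq_mono (hR.smul g (coh ((g none)⁻¹ j.1))) (le_top (a := q))
      rwa [smul_coh, perm_ai] at this

theorem act_opair {P G : Type} [Preorder P] [OrderTop P] [Group G] [MulAction G P]
    (T : SymSys P G) (g : G) (a b : Name P) :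
    FEq (act g (Name.opair a b)) (Name.opair (act g a) (act g b)) ⊤ := by
  have hp : ∀ a b : Name P, FEq (act g (Name.pair a b)) (Name.pair (act g a) (act g b)) ⊤ := by
    intro a b
    unfold Name.pair
    simp only [act, T.smul_top]
    refine feq_pointwise _ _ _ _ (fun _ _ _ => Iff.rfl) ?_
    rintro ⟨t⟩
    cases t
    · exact feq_refl _ _
    · exact feq_refl _ _
  exact feq_trans (hp _ _) (pair_congr (hp _ _) (hp _ _))

/-- Module F3. -/
theorem st_nwor (hR : ST_realFacts) (hcore : ST_core) (hdense : ST_dense) (hhull : ST_hull)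
    (hperm : ST_perm) (hP : ST_P0) (hO : ST_ofacts) : ST_nwor := by
  intro Q S p0
  have hRF := hR Q S
  have hSF := st_B3 (P0 Q × Cnd S) (Grp Q) (sys S)
  obtain ⟨hcore1, -⟩ := hcore Q S
  rw [forces_neg]
  intro q0 _ hwor
  unfold Fml.wor at hwor
  obtain ⟨q1, -, r, hr, hq1⟩ := (forces_ex _ _ _ _).1 hwor q0 le_rfl
  obtain ⟨hreals, hq1⟩ := hq1
  obtain ⟨q2, hq2, w, hw, hwo⟩ := (forces_ex _ _ _ _).1 hq1 q1 le_rfl
  replace hreals := forces_mono (sys S) _ _ hreals hq2
  -- supports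
  obtain ⟨H, ⟨z, ⟨ν, hzν, hzκ⟩, hzH⟩, hH⟩ := isHS_isSym _ hw
  -- the finite support of the Cohen part
  obtain ⟨zp, hzp, hzpb, hzpr⟩ := (hP Q).fin_supp q2.1
  have hfinK : Cardinal.mk zp ≤ Q.κ ν := (Cardinal.lt_aleph0_iff_set_finite.2 hzp).le.trans (κ_inf ν)
  have hz'κ : #(z ∪ zp : Set (Idx Q)) ≤ Q.κ ν := by
    refine (Cardinal.mk_union_le _ _).trans ((add_le_add hzκ hfinK).trans ?_)
    rw [Cardinal.add_eq_self (κ_inf _)]
  have hz'ν : z ∪ zp ⊆ below (ν : Stg Q) := Set.union_subset hzν (hzpb _)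
  obtain ⟨cs, Ys, hcs, hcsub, hcsC, hYs, -⟩ := hdense Q S ⊤ q2.2.1 (z ∪ zp) q2.2.2
    (fun i _ ξ _ => WithTop.coe_lt_top ξ) (hz'κ.trans (Q.κ_le_K ν))
  have hcut := (hO Q S).closedCut (ν : Stg Q) cs Ys hcs
  obtain ⟨Z, hzZ, hZY, hZκ, hZd⟩ := hhull Q S ν (cut cs ν) (Ys ∩ below (ν : Stg Q)) (z ∪ zp) hcut
    Set.inter_subset_right (Set.subset_inter hYs hz'ν) hz'κ
  have hf := (hcore1 (ν : Stg Q)).2.2 (cut cs ν) (Ys ∩ below (ν : Stg Q)) hcut
    Set.inter_subset_right Z hZY hZd
  set f := rst (cut cs (ν : Stg Q)) Z with hfdef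
  have hfcs : f ⊆ cs := fun t ht => ht.1.1
  have hZν : Z ⊆ below (ν : Stg Q) := hZY.trans Set.inter_subset_right
  have hZsmall : Pool.Agent.Helper46.SP.Small Z := ⟨ν, hZν, hZκ⟩
  have hfixZ : ∀ g : Grp Q, Fixes g Z → g ∈ H := by
    intro g hg
    exact hzH (fun i hi => hg i (hzZ (Or.inl hi)))
  -- the condition (p2, c*)
  let q3 : P0 Q × Cnd S := (q2.1, ⟨cs, hcs.cond⟩)
  have hq3 : q3 ≤ q2 := ⟨le_rfl, hcsub⟩
  -- the set name
  set s := cohSet S Z with hs
  have hsHS : (sys S).IsHS s := hs_cohSet hRF hZsmall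
  obtain ⟨hirr, htr, -, hmin⟩ := hwo
  have hv0 : ∀ i, (sys S).IsHS ((Fin.cons w (Fin.cons r Fin.elim0) : Fin 2 → Name _) i) :=
    hs_cons _ hw (hs_cons _ hr (fun i => i.elim0))
  -- Cohen reals are reals
  have hcr : ∀ (i : Q.Ω) (q : P0 Q × Cnd S), q ≤ q2 → FMem (rn S (coh i)) r q := by
    intro i q hq
    refine fmem_dense fun q' hq' => ?_
    have h2 : (sys S).Forces (Fml.isReals 0) (Fin.cons r Fin.elim0 : Fin 1 → Name _) q' :=
      forces_mono _ _ _ hreals (hq'.trans hq)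
    obtain ⟨r', hr', o, ho, h3, h4⟩ := (forces_ex _ _ _ _).1 h2 q' le_rfl
    have h5 := (hSF.isOmega (Fin.cons o (Fin.cons r Fin.elim0) : Fin 2 → Name _)
      (hs_cons _ ho (hs_cons _ hr (fun i => i.elim0))) 0 r').1 h3
    have h6 := h4 (rn S (coh i)) (hRF.hs _)
    rw [forces_iff] at h6
    refine ⟨r', hr', (h6 r' le_rfl).2 ?_⟩
    intro y _
    rw [forces_imp]
    intro q'' hq'' hy
    exact fmem_congr (feq_refl _ _) (feq_symm (feq_mono h5 hq'')) (hRF.sub (coh i) y q'' hy)
  -- the minimality clause for `s`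
  have hv3 : ∀ i, (sys S).IsHS ((Fin.cons s (Fin.cons w (Fin.cons r Fin.elim0)) :
      Fin 3 → Name _) i) := hs_cons _ hsHS hv0
  have hmin1 := hmin s hsHS
  rw [forces_imp] at hmin1
  have hsub : (sys S).Forces (Fml.all (Fml.imp (.mem 0 1) (.mem 0 3)))
      (Fin.cons s (Fin.cons w (Fin.cons r Fin.elim0)) : Fin 3 → Name _) q3 := by
    intro x _
    rw [forces_imp]
    intro q hq hxs
    refine fmem_dense fun q' hq' => ?_
    obtain ⟨r', hr', i, _, h2⟩ := fmem_cohSet.1 hxs q' hq'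
    exact ⟨r', hr', fmem_congr (feq_symm h2) (feq_refl _ _)
      (hcr i r' (hr'.trans (hq'.trans (hq.trans hq3))))⟩
  have hmin2 := hmin1 q3 hq3 hsub
  rw [forces_imp] at hmin2
  obtain ⟨i0, hi0⟩ : ∃ i0 : Q.Ω, ((none, i0) : Idx Q) ∉ Z := by
    by_contra hn
    push Not at hn
    have h1 : #Q.Ω ≤ #Z := Cardinal.mk_le_of_injective
      (f := fun i => (⟨(none, i), hn i⟩ : Z)) (by
        intro a b h
        simpa using h)
    exact absurd (h1.trans (hZκ.trans (Q.κ_le_K ν))) (not_le.2 Q.K_lt)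
  have hne : (sys S).Forces (Fml.ex (.mem 0 1))
      (Fin.cons s (Fin.cons w (Fin.cons r Fin.elim0)) : Fin 3 → Name _) q3 := by
    rw [forces_ex]
    intro q _
    refine ⟨q, le_rfl, rn S (coh i0), hRF.hs _, ?_⟩
    exact fmem_cohSet.2 fun q' _ => ⟨q', le_rfl, i0, hi0, feq_refl _ _⟩
  have hmin3 := hmin2 q3 le_rfl hne
  obtain ⟨q4, hq4, x, hx, hxs, hxl⟩ := (forces_ex _ _ _ _).1 hmin3 q3 le_rfl
  obtain ⟨q5, hq5, i, hi, hxi⟩ := fmem_cohSet.1 hxs q4 le_rfl
  have hv4 : ∀ i, (sys S).IsHS ((Fin.cons x (Fin.cons s (Fin.cons w (Fin.cons r Fin.elim0))) :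
      Fin 4 → Name _) i) := hs_cons _ hx hv3
  have hq52 : q5 ≤ q2 := hq5.trans (hq4.trans hq3)
  -- the property of `i`
  have key : ∀ j : Q.Ω, ((none, j) : Idx Q) ∉ Z → ∀ q ≤ q5, ∃ r' ≤ q,
      FEq (rn S (coh j)) (rn S (coh i)) r' ∨
        FMem (Name.opair (rn S (coh i)) (rn S (coh j))) w r' := by
    intro j hj q hq
    have h1 := hxl (rn S (coh j)) (hRF.hs _)
    rw [forces_imp] at h1
    have h2 := h1 q (hq.trans hq5)
      (fmem_cohSet.2 fun q' _ => ⟨q', le_rfl, j, hj, feq_refl _ _⟩)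
    rw [forces_or] at h2
    obtain ⟨r', hr', h3 | h3⟩ := h2 q le_rfl
    · exact ⟨r', hr', Or.inl (feq_trans h3 (feq_mono hxi (hr'.trans hq)))⟩
    · refine ⟨r', hr', Or.inr ?_⟩
      have h4 := (hSF.relMem _ (hs_cons _ (hRF.hs (coh j)) hv4) _ _ _ r').1 h3
      exact fmem_congr (opair_congr (feq_mono hxi (hr'.trans hq)) (feq_refl _ _))
        (feq_refl _ _) h4
  -- a closed condition below `q5`
  obtain ⟨zq, hzq, hzqb, hzqr⟩ := (hP Q).fin_supp q5.1
  have hcardY0 : #(insert ((none, i) : Idx Q) (zq ∪ Z) : Set (Idx Q)) ≤ Q.K := by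
    have h1 : ℵ₀ ≤ Q.κ ν := κ_inf ν
    refine le_trans ?_ (Q.κ_le_K ν)
    refine (Cardinal.mk_insert_le).trans ?_
    refine (add_le_add ((Cardinal.mk_union_le _ _).trans (add_le_add
      ((Cardinal.lt_aleph0_iff_set_finite.2 hzq).le.trans h1) hZκ)) (Cardinal.one_le_aleph0.trans h1)).trans ?_
    rw [Cardinal.add_eq_self h1, Cardinal.add_eq_self h1]
  obtain ⟨c', Y, hc', hcc', hc'C, hYY, -⟩ := hdense Q S ⊤ q5.2.1
    (insert ((none, i) : Idx Q) (zq ∪ Z)) q5.2.2 (fun i _ ξ _ => WithTop.coe_lt_top ξ) hcardY0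
  have hiY : ((none, i) : Idx Q) ∈ Y := hYY (Set.mem_insert _ _)
  have hZY' : Z ⊆ Y := fun k hk => hYY (Set.mem_insert_of_mem _ (Or.inr hk))
  have hzqY : zq ⊆ Y := fun k hk => hYY (Set.mem_insert_of_mem _ (Or.inl hk))
  obtain ⟨g, hgZ, hgY⟩ := (hperm Q).fresh Y Y Z hc'.card hc'.card hZY'
  have hgZset : g • Z = Z := by
    ext k
    rw [Set.mem_smul_set_iff_inv_smul_mem]
    constructor
    · intro hk
      have := hgZ _ hk
      rw [smul_inv_smul] at this
      rwa [this]
    · intro hk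
      have : g⁻¹ • k = k := by rw [inv_smul_eq_iff, hgZ k hk]
      rwa [this]
  have hinter : Y ∩ g • Y = Z := by
    ext k
    constructor
    · rintro ⟨h1, h2⟩
      rw [Set.mem_smul_set_iff_inv_smul_mem] at h2
      by_contra hk
      have h3 : g⁻¹ • k ∉ Z := by
        intro h
        apply hk
        rw [← hgZset, Set.mem_smul_set_iff_inv_smul_mem]
        exact h
      have := hgY _ h2 h3
      rw [smul_inv_smul] at this
      exact this h1
    · intro hk
      refine ⟨hZY' hk, ?_⟩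
      have h1 : k ∈ g • Z := by rw [hgZset]; exact hk
      exact Set.smul_set_mono hZY' h1
  have hfc' : f ⊆ c' := hfcs.trans ((show cs ⊆ q5.2.1 from (hq5.trans hq4).2).trans hcc')
  have hgf : g • f = f := by
    have h1 := (hO Q S).coverCongr g 1 f Z hf.ovr (fun k hk => by rw [one_smul]; exact hgZ k hk)
    rwa [one_smul] at h1
  have hMA := (hcore1 (⊤ : Stg Q)).1
  have hun := hMA Bool (fun b => cond b c' (g • c')) (fun b => cond b Y (g • Y)) (by
      intro b
      cases b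
      · exact (hO Q S).closedSmul g c' Y hc'
      · exact hc') (by
      intro b k _ ξ _
      exact WithTop.coe_lt_top ξ) (by
      intro a b hab
      have h2 : f ⊆ g • c' := by
        rw [← hgf]
        exact Set.smul_set_mono hfc'
      cases a <;> cases b
      · exact absurd rfl hab
      · refine ⟨f, h2, hfc', ?_⟩
        show Closed f (g • Y ∩ Y)
        rw [Set.inter_comm, hinter]
        exact hf
      · refine ⟨f, hfc', h2, ?_⟩
        show Closed f (Y ∩ g • Y)
        rw [hinter]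
        exact hf
      · exact absurd rfl hab)
  -- the Cohen parts are compatible
  have hpY : q5.1.res Y = q5.1 := (hP Q).res_eq_of _ zq Y hzqr hzqY
  have hresZ : (g • q5.1).res Z = q5.1.res Z := by
    have h1 : (g • q5.1).res Z = (g • q5.1).res (g • Z) := by rw [hgZset]
    rw [h1, (hP Q).smul_res]
    have h2 := (hP Q).smul_congr g 1 (q5.1.res Z) Z (by rw [(hP Q).res_res, Set.inter_self])
      (fun k hk => by rw [one_smul]; exact hgZ k hk)
    rwa [one_smul] at h2
  have hcompat : q5.1.Compat (g • q5.1) := by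
    refine (hP Q).compat_over _ _ Y (g • Y) hpY ?_ ?_
    · rw [(hP Q).smul_res, hpY]
    · rw [hinter, hresZ]
      intro x b b' h1 h2
      rw [h1] at h2
      exact Option.some.inj h2
  let q6 : P0 Q × Cnd S := (q5.1.merge (g • q5.1), ⟨⋃ b : Bool, cond b c' (g • c'), hun⟩)
  have h65 : q6 ≤ q5 := ⟨(hP Q).merge_left _ _, hcc'.trans (Set.subset_iUnion
    (fun b : Bool => (cond b c' (g • c') : RC S)) true)⟩
  have h6g : q6 ≤ g • q5 := ⟨(hP Q).merge_right _ _ hcompat, (Set.smul_set_mono hcc').trans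
    (Set.subset_iUnion (fun b : Bool => (cond b c' (g • c') : RC S)) false)⟩
  -- indices
  have hgi : ((none, g none i) : Idx Q) ∉ Z := by
    intro h
    have h1 : g⁻¹ • ((none, g none i) : Idx Q) = (none, i) := by
      rw [inv_smul_eq_iff]; rfl
    apply hi
    rw [← h1, ← Set.mem_smul_set_iff_inv_smul_mem, hgZset]
    exact h
  have hgne : g none i ≠ i := by
    intro h
    have h1 := hgY _ hiY hi
    apply h1
    rw [smul_idx]
    show ((none, g none i) : Idx Q) ∈ Y
    rw [h]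
    exact hiY
  have hji : ((none, (g none)⁻¹ i) : Idx Q) ∉ Z := by
    intro h
    apply hi
    have h1 : g • ((none, (g none)⁻¹ i) : Idx Q) = (none, i) := by
      rw [smul_idx]
      show ((none, g none ((g none)⁻¹ i)) : Idx Q) = _
      rw [perm_ai]
    rw [← h1, ← hgZset]
    exact Set.smul_mem_smul_set h
  have hgw : FEq (act g w) w ⊤ := hH g (hfixZ g hgZ)
  -- transport of `key`
  have keyg : ∀ q ≤ g • q5, ∃ r' ≤ q, FEq (rn S (coh i)) (rn S (coh (g none i))) r' ∨
      FMem (Name.opair (rn S (coh (g none i))) (rn S (coh i))) w r' := by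
    intro q hq
    obtain ⟨r', hr', h1⟩ := key ((g none)⁻¹ i) hji (g⁻¹ • q) (le_smul (sys S) g hq)
    have e1 : ∀ q' : P0 Q × Cnd S, FEq (act g (rn S (coh ((g none)⁻¹ i)))) (rn S (coh i)) q' := by
      intro q'
      have := feq_mono (hRF.smul g (coh ((g none)⁻¹ i))) (le_top (a := q'))
      rwa [smul_coh, perm_ai] at this
    have e2 : ∀ q' : P0 Q × Cnd S, FEq (act g (rn S (coh i))) (rn S (coh (g none i))) q' := by
      intro q'
      have := feq_mono (hRF.smul g (coh i)) (le_top (a := q'))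
      rwa [smul_coh] at this
    refine ⟨g • r', smul_le_of (sys S) g hr', ?_⟩
    rcases h1 with h1 | h1
    · left
      exact feq_trans (feq_symm (e1 _)) (feq_trans (feq_act (sys S) g h1) (e2 _))
    · right
      have h2 := fmem_act (sys S) g h1
      refine fmem_congr ?_ (feq_mono hgw le_top) h2
      exact feq_trans (feq_mono (act_opair (sys S) g _ _) le_top) (opair_congr (e2 _) (e1 _))
  obtain ⟨r1, hr1, h1⟩ := key (g none i) hgi q6 h65
  have m1 : FMem (Name.opair (rn S (coh i)) (rn S (coh (g none i)))) w r1 := by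
    rcases h1 with h1 | h1
    · exact (coh_ne hgne r1.1 ((hRF.feq _ _ r1.1 r1.2).1 h1)).elim
    · exact h1
  obtain ⟨r2, hr2, h2⟩ := keyg r1 (hr1.trans h6g)
  have m2 : FMem (Name.opair (rn S (coh (g none i))) (rn S (coh i))) w r2 := by
    rcases h2 with h2 | h2
    · exact (coh_ne hgne.symm r2.1 ((hRF.feq _ _ r2.1 r2.2).1 h2)).elim
    · exact h2
  have hr22 : r2 ≤ q2 := hr2.trans (hr1.trans (h65.trans hq52))
  -- transitivity and irreflexivity
  have m3 : FMem (Name.opair (rn S (coh i)) (rn S (coh i))) w r2 := by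
    have h3 := htr (rn S (coh i)) (hRF.hs _) (rn S (coh (g none i))) (hRF.hs _)
      (rn S (coh i)) (hRF.hs _)
    have hv5 := hs_cons (sys S) (hRF.hs (coh i)) (hs_cons (sys S) (hRF.hs (coh (g none i)))
      (hs_cons (sys S) (hRF.hs (coh i)) hv0))
    rw [forces_imp] at h3
    have h4 := h3 r2 hr22 (hcr _ _ hr22)
    rw [forces_imp] at h4
    have h5 := h4 r2 le_rfl (hcr _ _ hr22)
    rw [forces_imp] at h5
    have h6 := h5 r2 le_rfl (hcr _ _ hr22)
    rw [forces_imp] at h6
    have h7 := h6 r2 le_rfl ((hSF.relMem _ hv5 _ _ _ r2).2 (fmem_mono m1 hr2))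
    rw [forces_imp] at h7
    have h8 := h7 r2 le_rfl ((hSF.relMem _ hv5 _ _ _ r2).2 m2)
    exact (hSF.relMem _ hv5 _ _ _ r2).1 h8
  have h9 := hirr (rn S (coh i)) (hRF.hs _)
  rw [forces_imp] at h9
  have h10 := h9 r2 hr22 (hcr _ _ hr22)
  rw [forces_neg] at h10
  exact h10 r2 le_rfl ((hSF.relMem _ (hs_cons (sys S) (hRF.hs (coh i)) hv0) _ _ _ r2).2 m3)

end Pool.Agent.Helper23.SPF
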